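import Pool.Agent.Helper70.HE.Region
import Pool.Agent.Helper66.HC.FromH

/-! # Construction of the system of rings -/

open Set Filter

namespace Pool.H70.HE

open Pool.H66.HC Pool.H17.HCC

universe u

variable {V : Type u} {G H : SimpleGraph V}

/-- existence of hubs -/
def HubS (G : SimpleGraph V) : Prop :=
  ∀ X X1 N : Set V, N ⊆ X1 → X1 ⊆ X → N.Nonempty → Xᶜ.Nonempty → (X \ X1).Nonempty →
    (X1 \ N).Nonempty → TCi G X → TCi G X1 → TCi G N → TCi G (X \ X1) → TCi G (X1 \ N) →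
    (prs G X Xᶜ).Finite → (prs G X1 X1ᶜ).Finite → (prs G N Nᶜ).Finite →
    (∀ u ∈ N, ∀ v, G.Adj u v → v ∈ X1) → (∀ u ∈ X1, ∀ v, G.Adj u v → v ∈ X) →
    ∃ N', N ⊆ N' ∧ N' ⊆ X1 ∧ (prs G N' N'ᶜ).Finite ∧ TCi G N' ∧ TCi G (X \ N') ∧
      ∀ Q ⊆ X \ N', (prs G (N' ∪ Q) (N' ∪ Q)ᶜ).Finite →
        2 * {K | IsComp G Q K}.ncard + 2 ≤ ce G (N' ∪ Q) (N' ∪ Q)ᶜ

/-- a partition of the vertex set into zones -/
structure Part (G : SimpleGraph V) where
  /-- the zone of a vertex -/
  z : V → Set V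
  mem : ∀ x, x ∈ z x
  eq : ∀ x y, y ∈ z x → z y = z x
  tc : ∀ x, TCi G (z x)
  fin : ∀ x, (prs G (z x) (z x)ᶜ).Finite
  live : ∀ s ∈ G.end, ∃ x, Lives s (z x)

/-- one step -/
structure Step (P P' : Part G) (o : V) (s : Ch G) (K : Finset V) (X N : Set V) : Prop where
  zone : ∃ x, X ⊆ P.z x ∧ ∀ u ∈ X, ∀ v, G.Adj u v → v ∈ P.z x
  sub : N ⊆ X
  root : o ∉ X
  finX : (prs G X Xᶜ).Finite
  finN : (prs G N Nᶜ).Finite
  sep : ∀ u ∈ N, ∀ v, v ∉ X → ¬ G.Adj u v
  hub : ∀ Q ⊆ X \ N, (prs G (N ∪ Q) (N ∪ Q)ᶜ).Finite →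
    2 * {K | IsComp G Q K}.ncard + 2 ≤ ce G (N ∪ Q) (N ∪ Q)ᶜ
  live : Lives s N
  disj : Disjoint X (K : Set V)
  next : ∀ x, P'.z x = {y | y ∈ P.z x ∧ (y ∈ X ↔ x ∈ X) ∧ (y ∈ N ↔ x ∈ N)}

lemma fin_diff {A B : Set V} (hA : (prs G A Aᶜ).Finite) (hB : (prs G B Bᶜ).Finite) :
    (prs G (A \ B) (A \ B)ᶜ).Finite := by
  refine (hA.union (prs_finite_compl hB)).subset ?_
  rintro ⟨a, b⟩ ⟨ha, hb, hab⟩
  by_cases hbA : b ∈ A
  · right
    refine ⟨ha.2, ?_, hab⟩
    by_contra hbB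
    exact hb ⟨hbA, hbB⟩
  · left
    exact ⟨ha.1, hbA, hab⟩

theorem exists_step (hlf : ∀ v, (G.neighborSet v).Finite) (h4 : Four G) (hub : HubS G)
    (P : Part G) (o : V) {s : Ch G} (hs : s ∈ G.end) (K : Finset V) :
    ∃ (P' : Part G) (X N : Set V), Step P P' o s K X N := by
  classical
  obtain ⟨z, hz⟩ := P.live s hs
  obtain ⟨X, hXZ, hXf, hXl, hXK, hXa, hXt, hXr, hXn⟩ :=
    region hlf h4 (P.tc z) (P.fin z) hs hz (insert o K)
  obtain ⟨X1, hX1X, hX1f, hX1l, -, hX1a, hX1t, hX1r, hX1n⟩ := region hlf h4 hXt hXf hs hXl ∅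
  obtain ⟨N0, hN0X, hN0f, hN0l, -, hN0a, hN0t, hN0r, hN0n⟩ := region hlf h4 hX1t hX1f hs hX1l ∅
  have hoX : o ∉ X := fun h => Set.disjoint_left.1 hXK h (by simp)
  obtain ⟨N, hN1, hN2, hNf, hNt, hNr, hNh⟩ := hub X X1 N0 hN0X hX1X (lives_nonempty hN0l)
    ⟨o, hoX⟩ hX1n hN0n hXt hX1t hN0t hX1r hN0r hXf hX1f hN0f hN0a hX1a
  have hNX : N ⊆ X := hN2.trans hX1X
  have hNl : Lives s N := lives_mono hN0l hN1
  obtain ⟨p, hp⟩ := lives_nonempty hNl
  -- the new zones
  have hin : ∀ x ∈ P.z z, P.z x = P.z z := fun x hx => P.eq z x hx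
  have hout : ∀ x, x ∉ P.z z → ∀ y ∈ P.z x, y ∉ P.z z := by
    intro x hx y hy hyz
    apply hx
    rw [← hin y hyz, P.eq x y hy]
    exact P.mem x
  have cases4 : ∀ x, {y | y ∈ P.z x ∧ (y ∈ X ↔ x ∈ X) ∧ (y ∈ N ↔ x ∈ N)} = P.z x ∧ x ∉ P.z z ∨
      {y | y ∈ P.z x ∧ (y ∈ X ↔ x ∈ X) ∧ (y ∈ N ↔ x ∈ N)} = P.z z \ X ∨
      {y | y ∈ P.z x ∧ (y ∈ X ↔ x ∈ X) ∧ (y ∈ N ↔ x ∈ N)} = X \ N ∨
      {y | y ∈ P.z x ∧ (y ∈ X ↔ x ∈ X) ∧ (y ∈ N ↔ x ∈ N)} = N := by
    intro x
    by_cases hx : x ∈ P.z z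
    · right
      have e := hin x hx
      by_cases hxX : x ∈ X
      · right
        by_cases hxN : x ∈ N
        · right
          ext y
          constructor
          · rintro ⟨_, _, h3⟩
            exact h3.2 hxN
          · intro hy
            refine ⟨?_, ⟨fun _ => hxX, fun _ => hNX hy⟩, ⟨fun _ => hxN, fun _ => hy⟩⟩
            rw [e]; exact hXZ (hNX hy)
        · left
          ext y
          constructor
          · rintro ⟨_, h2, h3⟩
            exact ⟨h2.2 hxX, fun h => hxN (h3.1 h)⟩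
          · rintro ⟨hy, hy'⟩
            refine ⟨?_, ⟨fun _ => hxX, fun _ => hy⟩, ⟨fun h => absurd h hy', fun h => absurd h hxN⟩⟩
            rw [e]; exact hXZ hy
      · left
        ext y
        constructor
        · rintro ⟨h1, h2, _⟩
          rw [e] at h1
          exact ⟨h1, fun h => hxX (h2.1 h)⟩
        · rintro ⟨hy, hy'⟩
          refine ⟨?_, ⟨fun h => absurd h hy', fun h => absurd h hxX⟩,
            ⟨fun h => absurd (hNX h) hy', fun h => absurd (hNX h) hxX⟩⟩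
          rw [e]; exact hy
    · left
      refine ⟨?_, hx⟩
      ext y
      constructor
      · exact fun h => h.1
      · intro hy
        have hyz := hout x hx y hy
        exact ⟨hy, ⟨fun h => absurd (hXZ h) hyz, fun h => absurd (hXZ h) hx⟩,
          ⟨fun h => absurd (hXZ (hNX h)) hyz, fun h => absurd (hXZ (hNX h)) hx⟩⟩
  let P' : Part G :=
    { z := fun x => {y | y ∈ P.z x ∧ (y ∈ X ↔ x ∈ X) ∧ (y ∈ N ↔ x ∈ N)}
      mem := fun x => ⟨P.mem x, Iff.rfl, Iff.rfl⟩
      eq := by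
        rintro x y ⟨h1, h2, h3⟩
        ext w
        constructor
        · rintro ⟨g1, g2, g3⟩
          rw [P.eq x y h1] at g1
          exact ⟨g1, g2.trans h2, g3.trans h3⟩
        · rintro ⟨g1, g2, g3⟩
          refine ⟨?_, g2.trans h2.symm, g3.trans h3.symm⟩
          rw [P.eq x y h1]; exact g1
      tc := by
        intro x
        rcases cases4 x with ⟨e, _⟩ | e | e | e
        · rw [e]; exact P.tc x
        · rw [e]; exact hXr
        · rw [e]; exact hNr
        · rw [e]; exact hNt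
      fin := by
        intro x
        rcases cases4 x with ⟨e, _⟩ | e | e | e
        · rw [e]; exact P.fin x
        · rw [e]; exact fin_diff (P.fin z) hXf
        · rw [e]; exact fin_diff hXf hNf
        · rw [e]; exact hNf
      live := by
        intro t ht
        obtain ⟨x, hx⟩ := P.live t ht
        have key : ∀ S : Set V, Lives t S → (∀ y ∈ S, P.z y = P.z x) →
            (∀ y ∈ S, ∀ w ∈ S, (w ∈ X ↔ y ∈ X) ∧ (w ∈ N ↔ y ∈ N)) →
            ∃ y, Lives t {w | w ∈ P.z y ∧ (w ∈ X ↔ y ∈ X) ∧ (w ∈ N ↔ y ∈ N)} := by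
          intro S hS h1 h2
          obtain ⟨y, hy⟩ := lives_nonempty hS
          refine ⟨y, lives_mono hS fun w hw => ?_⟩
          refine ⟨?_, h2 y hy w hw⟩
          rw [h1 y hy, ← h1 w hw]
          exact P.mem w
        have hzx : ∀ y ∈ P.z x, P.z y = P.z x := fun y hy => P.eq x y hy
        rcases lives_or (s := t) hXf with h1 | h1
        · rcases lives_or (s := t) hNf with h2 | h2
          · refine key (P.z x ∩ N) (lives_inter ht hx h2) (fun y hy => hzx y hy.1) ?_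
            intro y hy w hw
            exact ⟨⟨fun _ => hNX hy.2, fun _ => hNX hw.2⟩, ⟨fun _ => hy.2, fun _ => hw.2⟩⟩
          · refine key (P.z x ∩ (X ∩ Nᶜ)) (lives_inter ht hx (lives_inter ht h1 h2))
              (fun y hy => hzx y hy.1) ?_
            intro y hy w hw
            exact ⟨⟨fun _ => hy.2.1, fun _ => hw.2.1⟩,
              ⟨fun h => absurd h hw.2.2, fun h => absurd h hy.2.2⟩⟩
        · refine key (P.z x ∩ Xᶜ) (lives_inter ht hx h1) (fun y hy => hzx y hy.1) ?_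
          intro y hy w hw
          exact ⟨⟨fun h => absurd h hw.2, fun h => absurd h hy.2⟩,
            ⟨fun h => absurd (hNX h) hw.2, fun h => absurd (hNX h) hy.2⟩⟩ }
  refine ⟨P', X, N, ⟨⟨z, hXZ, hXa⟩, hNX, hoX, hXf, hNf, ?_, hNh, hNl, ?_, fun x => rfl⟩⟩
  · intro u hu v hv huv
    exact hv (hX1a u (hN2 hu) v huv)
  · rw [Finset.coe_insert] at hXK
    exact hXK.mono_right (Set.subset_insert _ _)

/-- the trivial partition -/
def part0 (h4 : Four G) : Part G where
  z := fun _ => univ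
  mem := fun _ => trivial
  eq := fun _ _ _ => rfl
  tc := by
    intro _ A _ hne hneq hf
    rw [← compl_eq_univ_sdiff] at hf ⊢
    have := h4 A hne (by rw [Set.nonempty_compl]; exact hneq) hf
    omega
  fin := by
    intro _
    rw [compl_univ]
    refine finite_empty.subset ?_
    rintro p ⟨_, h, _⟩
    exact h
  live := by
    intro s hs
    obtain ⟨K, hK⟩ : ∃ K : Finset V, (s (Opposite.op K)).supp ⊆ univ := ⟨∅, subset_univ _⟩
    obtain ⟨x, -⟩ := (s (Opposite.op K)).nonempty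
    exact ⟨x, K, hK⟩

theorem exists_sys_of_hub (hlf : ∀ v, (G.neighborSet v).Finite) (h4 : Four G) [Infinite V]
    (hc : Countable G.end) (hub : HubS G) : ∃ X N o, Sys G X N o ∧ Cof G X N := by
  classical
  have hpre : G.Preconnected := CC.preconnected h4.cc
  have hVc : Countable V := countable_of_locally_finite hlf hpre
  obtain ⟨o⟩ : Nonempty V := inferInstance
  obtain ⟨s0, hs0, -⟩ := exists_end hlf hpre (hyperfilter V) hyperfilter_le_cofinite
  have : Nonempty (G.end × Finset V) := ⟨⟨⟨s0, hs0⟩, ∅⟩⟩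
  obtain ⟨e, he⟩ := exists_surjective_nat (G.end × Finset V)
  have hstep : ∀ (n : ℕ) (P : Part G), ∃ (P' : Part G) (X N : Set V),
      Step P P' o (e n).1.1 (e n).2 X N := fun n P =>
    exists_step hlf h4 hub P o (e n).1.2 (e n).2
  choose nx Xf Nf hnx using hstep
  let P : ℕ → Part G := fun n => Nat.rec (part0 h4) (fun n c => nx n c) n
  let X : ℕ → Set V := fun n => Xf n (P n)
  let N : ℕ → Set V := fun n => Nf n (P n)
  have hP : ∀ n, Step (P n) (P (n + 1)) o (e n).1.1 (e n).2 (X n) (N n) := fun n => hnx n (P n)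
  have hz : ∀ n x, zone X N n x = (P n).z x := by
    intro n
    induction n with
    | zero =>
      intro x
      ext y
      exact ⟨fun _ => trivial, fun _ i hi => absurd hi (Nat.not_lt_zero i)⟩
    | succ n ih =>
      intro x
      rw [(hP n).next x, ← ih x]
      ext y
      constructor
      · intro h
        exact ⟨fun i hi => h i (by omega), h n (Nat.lt_succ_self n)⟩
      · rintro ⟨h1, h2⟩ i hi
        rcases Nat.lt_succ_iff_lt_or_eq.1 hi with h | rfl
        · exact h1 i h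
        · exact h2
  refine ⟨X, N, o, ⟨fun i => (hP i).sub, fun i => lives_nonempty (hP i).live,
    fun i => (hP i).root, fun i => (hP i).finX, fun i => (hP i).finN, fun i => (hP i).sep,
    ?_, ?_, ?_, fun i => (hP i).hub⟩, ?_⟩
  · intro i j hij
    obtain ⟨x, hx, -⟩ := (hP j).zone
    rw [← hz] at hx
    by_cases h1 : x ∈ N i
    · left
      intro y hy
      exact (hx hy i hij).2.2 h1
    · by_cases h2 : x ∈ X i
      · right; left
        intro y hy
        exact ⟨(hx hy i hij).1.2 h2, fun h => h1 ((hx hy i hij).2.1 h)⟩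
      · right; right
        rw [Set.disjoint_left]
        intro y hy hyX
        exact h2 ((hx hy i hij).1.1 hyX)
  · intro i j hij u v huv h
    obtain ⟨x, hx, hx'⟩ := (hP j).zone
    rw [← hz] at hx hx'
    constructor
    · intro hu
      have h1 := hx hu i hij
      have h2 := hx' u hu v huv i hij
      rcases h with ⟨h3, h4⟩ | ⟨h3, h4⟩
      · exact h4 (h2.1.2 (h1.1.1 h3))
      · exact h4 (h2.2.2 (h1.2.1 h3))
    · intro hv
      have h1 := hx hv i hij
      have h2 := hx' v hv u huv.symm i hij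
      rcases h with ⟨h3, h4⟩ | ⟨h3, h4⟩
      · exact h4 (h1.1.2 (h2.1.1 h3))
      · exact h4 (h1.2.2 (h2.2.1 h3))
  · intro n x
    rw [hz]
    exact (P n).tc x
  · intro s hs K
    obtain ⟨n, hn⟩ := he (⟨s, hs⟩, K)
    refine ⟨n, ?_, ?_⟩
    · have := (hP n).live
      rw [hn] at this
      exact this
    · have := (hP n).disj
      rw [hn] at this
      exact this

end Pool.H70.HE
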