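import Pool.Agent.Helper70.HE.Good
import Pool.Agent.Helper70.HE.Skel

/-! # Assembly -/

open Set Filter

namespace Pool.H70.HE

open Pool.H66.HC Pool.H17.HCC

universe u

variable {V : Type u} {G : SimpleGraph V}

/-- the theorem for graphs with countably many ends, from the hub and the limit -/
theorem main_of [Infinite V] (hlf : ∀ v, (G.neighborSet v).Finite) (h4 : G.IsEdgeConnected 4)
    (hc : Countable G.end) (hub : HubS G)
    (hlim : ∀ (X N : ℕ → Set V) (o : V), Sys G X N o → ∃ H, Lim G H X N) :
    HasHamiltonCircle G.lineGraph := by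
  have hF := four_of_isEdgeConnected h4
  have hG : G.Preconnected := h4.preconnected (by norm_num)
  obtain ⟨X, N, o, hS, hCof⟩ := exists_sys_of_hub hlf hF hc hub
  obtain ⟨H, hH⟩ := hlim X N o hS
  exact theoremA hlf hG (exists_three_edges hF hlf) (Lim.good2 hlf hF hc hS hCof hH)

end Pool.H70.HE
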