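import Pool.Agent.Helper70.HE.Ends

/-! # Connectedness of the limit graph -/

open Set Filter

namespace Pool.H70.HE

open Pool.H66.HC Pool.H17.HCC

universe u

variable {V : Type u} {G H : SimpleGraph V} {X N : ℕ → Set V} {o : V}

lemma sys_zone (hS : Sys G X N o) (i : ℕ) {x : V} (hx : x ∈ X i) : X i ⊆ zone X N i x := by
  intro y hy j hj
  rcases hS.nest j i hj with h | h | h
  · exact ⟨⟨fun _ => hS.sub j (h hx), fun _ => hS.sub j (h hy)⟩, ⟨fun _ => h hx, fun _ => h hy⟩⟩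
  · exact ⟨⟨fun _ => (h hx).1, fun _ => (h hy).1⟩,
      ⟨fun h' => absurd h' (h hy).2, fun h' => absurd h' (h hx).2⟩⟩
  · have e1 : y ∉ X j := fun h' => Set.disjoint_left.1 h hy h'
    have e2 : x ∉ X j := fun h' => Set.disjoint_left.1 h hx h'
    exact ⟨⟨fun h' => absurd h' e1, fun h' => absurd h' e2⟩,
      ⟨fun h' => absurd (hS.sub j h') e1, fun h' => absurd (hS.sub j h') e2⟩⟩

lemma sys_tcN (hS : Sys G X N o) (i : ℕ) : TCi G (N i) := by
  obtain ⟨x, hx⟩ := hS.ne i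
  have h := hS.tc (i + 1) x
  have e : zone X N (i + 1) x = N i := by
    apply subset_antisymm
    · intro y hy
      exact ((hy i (Nat.lt_succ_self i)).2).2 hx
    · intro y hy j hj
      rcases Nat.lt_succ_iff_lt_or_eq.1 hj with h | rfl
      · exact sys_zone hS i (hS.sub i hx) (hS.sub i hy) j h
      · exact ⟨⟨fun _ => hS.sub j hx, fun _ => hS.sub j hy⟩, ⟨fun _ => hx, fun _ => hy⟩⟩
  rwa [e] at h

lemma sys_tcB (hS : Sys G X N o) (i : ℕ) : TCi G (X i \ N i) := by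
  by_cases hne : (X i \ N i).Nonempty
  · obtain ⟨x, hx⟩ := hne
    have h := hS.tc (i + 1) x
    have e : zone X N (i + 1) x = X i \ N i := by
      apply subset_antisymm
      · intro y hy
        have := hy i (Nat.lt_succ_self i)
        exact ⟨this.1.2 hx.1, fun h' => hx.2 (this.2.1 h')⟩
      · intro y hy j hj
        rcases Nat.lt_succ_iff_lt_or_eq.1 hj with h | rfl
        · exact sys_zone hS i hx.1 hy.1 j h
        · exact ⟨⟨fun _ => hx.1, fun _ => hy.1⟩,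
            ⟨fun h' => absurd h' hy.2, fun h' => absurd h' hx.2⟩⟩
    rwa [e] at h
  · intro A hA hne'
    obtain ⟨a, ha⟩ := hne'
    exact absurd ⟨a, hA ha⟩ hne

lemma sys_edge (hS : Sys G X N o) (h4 : Four G) (i : ℕ) :
    ∃ u ∈ N i, ∃ v ∈ X i \ N i, G.Adj u v := by
  have h := h4 (N i) (hS.ne i) ⟨o, fun h => hS.root i (hS.sub i h)⟩ (hS.finN i)
  have hne : (prs G (N i) (N i)ᶜ).Nonempty := by
    rw [nonempty_iff_ne_empty]
    intro he
    rw [ce, he, Set.ncard_empty] at h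
    omega
  obtain ⟨⟨u, v⟩, hu, hv, huv⟩ := hne
  refine ⟨u, hu, v, ⟨?_, hv⟩, huv⟩
  by_contra hvX
  exact hS.sep i u hu v hvX huv

lemma sys_ccX (hS : Sys G X N o) (h4 : Four G) (i : ℕ) : CC G (X i) := by
  intro A hA hne hneq
  by_cases c1 : (A ∩ N i).Nonempty ∧ A ∩ N i ≠ N i
  · obtain ⟨u, hu, v, hv, huv⟩ := tci_cc (sys_tcN hS i) _ inter_subset_right c1.1 c1.2
    exact ⟨u, hu.1, v, ⟨hS.sub i hv.1, fun h => hv.2 ⟨h, hv.1⟩⟩, huv⟩
  by_cases c2 : (A ∩ (X i \ N i)).Nonempty ∧ A ∩ (X i \ N i) ≠ X i \ N i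
  · obtain ⟨u, hu, v, hv, huv⟩ := tci_cc (sys_tcB hS i) _ inter_subset_right c2.1 c2.2
    exact ⟨u, hu.1, v, ⟨hv.1.1, fun h => hv.2 ⟨h, hv.1⟩⟩, huv⟩
  push Not at c1 c2
  obtain ⟨u, hu, v, hv, huv⟩ := sys_edge hS h4 i
  by_cases hu' : u ∈ A
  · have e1 := c1 ⟨u, hu', hu⟩
    have hv' : v ∉ A := by
      intro hv'
      have e2 := c2 ⟨v, hv', hv⟩
      apply hneq
      refine hA.antisymm fun x hx => ?_
      by_cases hxN : x ∈ N i
      · rw [← e1] at hxN; exact hxN.1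
      · have : x ∈ X i \ N i := ⟨hx, hxN⟩
        rw [← e2] at this; exact this.1
    exact ⟨u, hu', v, ⟨hv.1, hv'⟩, huv⟩
  · have hv' : v ∈ A := by
      obtain ⟨a, ha⟩ := hne
      by_cases haN : a ∈ N i
      · have e1 := c1 ⟨a, ha, haN⟩
        rw [← e1] at hu
        exact absurd hu.1 hu'
      · have e2 := c2 ⟨a, ha, hA ha, haN⟩
        rw [← e2] at hv
        exact hv.1
    exact ⟨v, hv', u, ⟨hS.sub i hu, hu'⟩, huv.symm⟩

/-- deep rings around an end -/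
lemma sys_deep (hS : Sys G X N o) (h4 : Four G) (hCof : Cof G X N) {s : Ch G} (hs : s ∈ G.end)
    {R : Set V} (hR : Lives s R) (K : Finset V) :
    ∃ i, Lives s (N i) ∧ X i ⊆ R ∧ Disjoint (X i) (K : Set V) := by
  classical
  obtain ⟨L, hL⟩ := hR
  obtain ⟨i, h1, h2⟩ := hCof s hs (K ∪ L)
  rw [Finset.coe_union, Set.disjoint_union_right] at h2
  refine ⟨i, h1, ?_, h2.1⟩
  refine (cc_sub_supp (sys_ccX hS h4 i) (s (Opposite.op L)) h2.2 ?_).trans hL
  have h3 : Lives s (s (Opposite.op L)).supp := ⟨L, subset_rfl⟩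
  exact lives_nonempty (lives_inter hs (lives_mono h1 (hS.sub i)) h3)

/-- between two rings which avoid `P` there is no edge of `P` leaving the middle -/
lemma sandwich (hS : Sys G X N o) {i j : ℕ} {P : Set V} (hi : Disjoint (X i \ N i) P)
    (hj : Disjoint (X j \ N j) P) {a b : V} (ha : a ∈ N i) (ha' : a ∉ X j) (hb : b ∈ P)
    (hab : G.Adj a b) : b ∈ N i ∧ b ∉ X j := by
  constructor
  · by_contra hbN
    have hbX : b ∈ X i := by
      by_contra hbX
      exact hS.sep i a ha b hbX hab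
    exact Set.disjoint_left.1 hi ⟨hbX, hbN⟩ hb
  · intro hbX
    have hbN : b ∈ N j := by
      by_contra hbN
      exact Set.disjoint_left.1 hj ⟨hbX, hbN⟩ hb
    exact hS.sep j b hbN a ha' hab.symm


/-- infinitely many edges of `G[R]` cross `Q` -/
def Bad (G : SimpleGraph V) (Q R : Set V) : Prop :=
  (prs G R Rᶜ).Finite ∧ (prs G (R ∩ Q) (R \ Q)).Infinite

lemma core (hS : Sys G X N o) (h4 : Four G) {S P R : Set V} (hle : H ≤ G) (hP : P ⊆ S)
    (hPne : P ≠ S)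
    (hblk : ∀ A ⊆ S, A.Nonempty → A ≠ S → (prs G A (S \ A)).Finite →
      ∃ u ∈ A, ∃ v ∈ S \ A, H.Adj u v)
    (hcl : ∀ u ∈ P, ∀ v ∈ S, H.Adj u v → v ∈ P) {s : Ch G} (hs : s ∈ G.end)
    (hfin : (prs G R Rᶜ).Finite)
    (hnb : ∀ R' ⊆ R, (prs G R' R'ᶜ).Finite → Lives s R'ᶜ → (prs G (R' ∩ P) (R' \ P)).Finite)
    (cof : ∀ K : Finset V, ∃ i, Lives s (N i) ∧ X i ⊆ R ∧ Disjoint (X i) (K : Set V) ∧
      Disjoint (X i \ N i) P)
    (hN : ∀ i, Lives s (N i) → X i ⊆ R → (N i ∩ P).Nonempty) : False := by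
  classical
  obtain ⟨i, hi1, hi2, -, hi4⟩ := cof ∅
  obtain ⟨y, hyN, hyP⟩ := hN i hi1 hi2
  obtain ⟨L, hL⟩ := hi1
  obtain ⟨j, hj1, hj2, hj3, hj4⟩ := cof ({y} ∪ L)
  rw [Finset.coe_union, Set.disjoint_union_right] at hj3
  have hyX : y ∉ X j := fun h => Set.disjoint_left.1 hj3.1 h (by simp)
  have hXX : X j ⊆ N i := by
    refine (cc_sub_supp (sys_ccX hS h4 j) (s (Opposite.op L)) hj3.2 ?_).trans hL
    have h3 : Lives s (s (Opposite.op L)).supp := ⟨L, subset_rfl⟩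
    exact lives_nonempty (lives_inter hs (lives_mono hj1 (hS.sub j)) h3)
  have hsw : ∀ a ∈ P ∩ (N i \ X j), ∀ b ∈ P, G.Adj a b → b ∈ P ∩ (N i \ X j) := by
    intro a ha b hb hab
    have := sandwich hS hi4 hj4 ha.2.1 ha.2.2 hb hab
    exact ⟨hb, this⟩
  have hAS : P ∩ (N i \ X j) ⊆ S := inter_subset_left.trans hP
  have hfR : (prs G (R \ X j) (R \ X j)ᶜ).Finite := by
    refine (hfin.union (prs_finite_compl (hS.finX j))).subset ?_
    rintro ⟨a, b⟩ ⟨ha, hb, hab⟩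
    by_cases hbR : b ∈ R
    · right
      refine ⟨ha.2, ?_, hab⟩
      by_contra hbX
      exact hb ⟨hbR, hbX⟩
    · left
      exact ⟨ha.1, hbR, hab⟩
  have h1 := hnb (R \ X j) sdiff_subset hfR
    (lives_mono hj1 (fun x hx h => h.2 (hS.sub j hx)))
  have hfA : (prs G (P ∩ (N i \ X j)) (S \ (P ∩ (N i \ X j)))).Finite := by
    refine (h1.union (prs_finite_compl (hS.finX j))).subset ?_
    rintro ⟨a, b⟩ ⟨ha, hb, hab⟩
    have hbP : b ∉ P := fun hbP => hb.2 (hsw a ha b hbP hab)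
    have hbX : b ∈ X i := by
      by_contra hbX
      exact hS.sep i a ha.2.1 b hbX hab
    by_cases hbj : b ∈ X j
    · right
      exact ⟨ha.2.2, hbj, hab⟩
    · left
      exact ⟨⟨⟨hi2 (hS.sub i ha.2.1), ha.2.2⟩, ha.1⟩, ⟨⟨hi2 hbX, hbj⟩, hbP⟩, hab⟩
  obtain ⟨a, ha, b, hb, hab⟩ := hblk _ hAS ⟨y, hyP, hyN, hyX⟩ (fun he => hPne (hP.antisymm (by
    rw [← he]; exact inter_subset_left))) hfA
  exact hb.2 (hsw a ha b (hcl a ha.1 b hb.1 hab) (hle hab))

lemma step (hS : Sys G X N o) (h4 : Four G) (hCof : Cof G X N) (hL : Lim G H X N) {S Q R : Set V}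
    (hQ : Q ⊆ S) (hQne : Q ≠ S) (hQ0 : Q.Nonempty)
    (hblk : ∀ A ⊆ S, A.Nonempty → A ≠ S → (prs G A (S \ A)).Finite →
      ∃ u ∈ A, ∃ v ∈ S \ A, H.Adj u v)
    (hcl : ∀ u ∈ Q, ∀ v ∈ S \ Q, ¬ H.Adj u v) {s : Ch G} (hs : s ∈ G.end) (hR : R ⊆ S)
    (hb : Bad G Q R) : ∃ R' ⊆ R, Bad G Q R' ∧ Lives s R'ᶜ := by
  classical
  by_contra hcon
  push Not at hcon
  obtain ⟨hfin, hinf⟩ := hb
  have hRl : Lives s R := (lives_or hfin).resolve_right (hcon R subset_rfl ⟨hfin, hinf⟩)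
  have hnb : ∀ R' ⊆ R, (prs G R' R'ᶜ).Finite → Lives s R'ᶜ →
      (prs G (R' ∩ Q) (R' \ Q)).Finite := by
    intro R' h1 h2 h3
    by_contra h4
    exact hcon R' h1 ⟨h2, h4⟩ h3
  have hfB : ∀ i, (prs G (X i \ N i) (X i \ N i)ᶜ).Finite := by
    intro i
    refine ((hS.finX i).union (prs_finite_compl (hS.finN i))).subset ?_
    rintro ⟨a, b⟩ ⟨ha, hb, hab⟩
    by_cases hbX : b ∈ X i
    · right
      refine ⟨ha.2, ?_, hab⟩
      by_contra hbN
      exact hb ⟨hbX, hbN⟩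
    · left
      exact ⟨ha.1, hbX, hab⟩
  have hfR : ∀ i, (prs G (R \ X i) (R \ X i)ᶜ).Finite := by
    intro i
    refine (hfin.union (prs_finite_compl (hS.finX i))).subset ?_
    rintro ⟨a, b⟩ ⟨ha, hb, hab⟩
    by_cases hbR : b ∈ R
    · right
      refine ⟨ha.2, ?_, hab⟩
      by_contra hbX
      exact hb ⟨hbR, hbX⟩
    · left
      exact ⟨ha.1, hbR, hab⟩
  have hBnb : ∀ i, Lives s (N i) → X i ⊆ R →
      (prs G ((X i \ N i) ∩ Q) ((X i \ N i) \ Q)).Finite := by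
    intro i hi1 hi2
    exact hnb _ (sdiff_subset.trans hi2) (hfB i) (lives_mono hi1 (fun x hx h => h.2 hx))
  have hring : ∀ i, Lives s (N i) → X i ⊆ R → Disjoint (X i \ N i) Q ∨ X i \ N i ⊆ Q := by
    intro i hi1 hi2
    by_cases hd : ((X i \ N i) ∩ Q).Nonempty
    · right
      by_contra hsub
      obtain ⟨u, hu, v, hv, huv⟩ := hL.rings i ((X i \ N i) ∩ Q) inter_subset_left hd
        (fun he => hsub (by rw [← he]; exact inter_subset_right)) (by
          refine (hBnb i hi1 hi2).subset (prs_mono subset_rfl ?_)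
          rintro x ⟨hx, hx'⟩
          exact ⟨hx, fun h => hx' ⟨hx, h⟩⟩)
      exact hcl u hu.2 v ⟨hR (hi2 hv.1.1), fun h => hv.2 ⟨hv.1, h⟩⟩ huv
    · left
      rw [Set.disjoint_iff_inter_eq_empty]
      exact Set.not_nonempty_iff_eq_empty.1 hd
  have hNinf : ∀ i, Lives s (N i) → X i ⊆ R → (prs G (N i ∩ Q) (N i \ Q)).Nonempty := by
    intro i hi1 hi2
    have h1 := hnb (R \ X i) sdiff_subset (hfR i)
      (lives_mono hi1 (fun x hx h => h.2 (hS.sub i hx)))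
    have h2 := hBnb i hi1 hi2
    by_contra hne
    rw [Set.not_nonempty_iff_eq_empty] at hne
    apply hinf
    refine (((((h1.union h2).union (hS.finX i)).union (prs_finite_compl (hS.finX i))).union
      (hS.finN i)).union (prs_finite_compl (hS.finN i))).subset ?_
    rintro ⟨a, b⟩ ⟨ha, hb, hab⟩
    by_cases haN : a ∈ N i
    · by_cases hbN : b ∈ N i
      · have : (a, b) ∈ prs G (N i ∩ Q) (N i \ Q) := ⟨⟨haN, ha.2⟩, ⟨hbN, hb.2⟩, hab⟩
        rw [hne] at this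
        exact absurd this (Set.notMem_empty _)
      · left; right
        exact ⟨haN, hbN, hab⟩
    · by_cases hbN : b ∈ N i
      · right
        exact ⟨haN, hbN, hab⟩
      · by_cases haX : a ∈ X i
        · by_cases hbX : b ∈ X i
          · left; left; left; left; right
            exact ⟨⟨⟨haX, haN⟩, ha.2⟩, ⟨⟨hbX, hbN⟩, hb.2⟩, hab⟩
          · left; left; left; right
            exact ⟨haX, hbX, hab⟩
        · by_cases hbX : b ∈ X i
          · left; left; right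
            exact ⟨haX, hbX, hab⟩
          · left; left; left; left; left
            exact ⟨⟨⟨ha.1, haX⟩, ha.2⟩, ⟨⟨hb.1, hbX⟩, hb.2⟩, hab⟩
  by_cases hc : ∀ K : Finset V, ∃ i, Lives s (N i) ∧ X i ⊆ R ∧ Disjoint (X i) (K : Set V) ∧
      Disjoint (X i \ N i) Q
  · refine core (H := H) hS h4 hL.le hQ hQne hblk ?_ hs hfin hnb hc ?_
    · intro u hu v hv huv
      by_contra hvQ
      exact hcl u hu v ⟨hv, hvQ⟩ huv
    · intro i hi1 hi2
      obtain ⟨⟨a, b⟩, ha, -, -⟩ := hNinf i hi1 hi2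
      exact ⟨a, ha⟩
  · push Not at hc
    obtain ⟨K0, hK0⟩ := hc
    refine core (H := H) (P := S \ Q) hS h4 hL.le sdiff_subset ?_ hblk ?_ hs hfin ?_ ?_ ?_
    · intro he
      obtain ⟨q, hq⟩ := hQ0
      have : q ∈ S \ Q := by rw [he]; exact hQ hq
      exact this.2 hq
    · intro u hu v hv huv
      refine ⟨hv, fun hvQ => ?_⟩
      exact hcl v hvQ u hu huv.symm
    · intro R' h1 h2 h3
      have := hnb R' h1 h2 h3
      rw [← prs_swap]
      refine (this.subset (prs_mono ?_ ?_)).image _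
      · rintro x ⟨hx, hx'⟩
        refine ⟨hx, ?_⟩
        by_contra hxQ
        exact hx' ⟨hR (h1 hx), hxQ⟩
      · rintro x ⟨hx, hx'⟩
        exact ⟨hx, hx'.2⟩
    · intro K
      obtain ⟨i, hi1, hi2, hi3⟩ := sys_deep hS h4 hCof hs hRl (K ∪ K0)
      rw [Finset.coe_union, Set.disjoint_union_right] at hi3
      refine ⟨i, hi1, hi2, hi3.1, ?_⟩
      have h1 := (hring i hi1 hi2).resolve_left (hK0 i hi1 hi2 hi3.2)
      rw [Set.disjoint_left]
      intro x hx hx'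
      exact hx'.2 (h1 hx)
    · intro i hi1 hi2
      obtain ⟨⟨a, b⟩, -, hb, -⟩ := hNinf i hi1 hi2
      exact ⟨b, hb.1, hR (hi2 (hS.sub i hb.1)), hb.2⟩

end Pool.H70.HE
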