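import Pool.Agent.Helper70.HE.Conn

/-! # Diagonalisation over the ends and the properties of the limit graph -/

open Set Filter

namespace Pool.H70.HE

open Pool.H66.HC Pool.H17.HCC

universe u

variable {V : Type u} {G H : SimpleGraph V} {X N : ℕ → Set V} {o : V}

lemma four_pre (h4 : Four G) : G.Preconnected := CC.preconnected h4.cc

/-- an end whose neighbourhoods contain the vertices `x L` for ultra-many `L` -/
lemma end_of_map (hlf : ∀ v, (G.neighborSet v).Finite) (hG : G.Preconnected) {ι : Type*}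
    (g : Ultrafilter ι) (x : ι → V) (hx : ∀ v, ∀ᶠ i in (g : Filter ι), x i ≠ v) :
    ∃ s ∈ G.end, ∀ K : (Finset V)ᵒᵖ, ∀ᶠ i in (g : Filter ι), x i ∈ (s K).supp := by
  have hf : ((g.map x : Ultrafilter V) : Filter V) ≤ cofinite := by
    intro U hU
    rw [Filter.mem_cofinite] at hU
    have h1 : ∀ᶠ i in (g : Filter ι), ∀ v ∈ Uᶜ, x i ≠ v := by
      rw [Filter.eventually_all_finite hU]
      intro v _
      exact hx v
    show x ⁻¹' U ∈ (g : Filter ι)
    filter_upwards [h1] with i hi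
    by_contra hiU
    exact hi (x i) hiU rfl
  obtain ⟨s, hs, hs'⟩ := exists_end hlf hG (g.map x) hf
  exact ⟨s, hs, fun K => hs' K⟩

lemma exists_some_end (hlf : ∀ v, (G.neighborSet v).Finite) (hG : G.Preconnected) [Infinite V] :
    ∃ s, s ∈ G.end := by
  obtain ⟨s, hs, -⟩ := exists_end hlf hG (hyperfilter V) (hyperfilter_le_cofinite)
  exact ⟨s, hs⟩

/-- an end in a decreasing sequence of infinite sets -/
lemma end_of_seq (hlf : ∀ v, (G.neighborSet v).Finite) (hG : G.Preconnected) (R : ℕ → Set V)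
    (hmono : ∀ n, R (n + 1) ⊆ R n) (hinf : ∀ n, (R n).Infinite) :
    ∃ s ∈ G.end, ∀ n, ∀ K : (Finset V)ᵒᵖ, ((s K).supp ∩ R n).Nonempty := by
  classical
  have hex : ∀ i : Finset V × ℕ, ∃ y, y ∈ R i.2 ∧ y ∉ i.1 := by
    intro i
    obtain ⟨y, hy⟩ := ((hinf i.2).sdiff i.1.finite_toSet).nonempty
    exact ⟨y, hy.1, hy.2⟩
  choose x hx using hex
  have hanti : ∀ n m, n ≤ m → R m ⊆ R n := by
    intro n m h
    induction m, h using Nat.le_induction with
    | base => exact subset_rfl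
    | succ m _ ih => exact (hmono m).trans ih
  obtain ⟨s, hs, hs'⟩ := end_of_map hlf hG (Ultrafilter.of (atTop : Filter (Finset V × ℕ))) x
    (by
      intro v
      have : ∀ᶠ i in (atTop : Filter (Finset V × ℕ)), x i ≠ v := by
        refine eventually_atTop.2 ⟨({v}, 0), fun i hi => ?_⟩
        intro he
        exact (hx i).2 (by rw [he]; exact hi.1 (Finset.mem_singleton_self v))
      exact Ultrafilter.of_le _ this)
  refine ⟨s, hs, fun n K => ?_⟩
  have h1 : ∀ᶠ i in ((Ultrafilter.of (atTop : Filter (Finset V × ℕ)) :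
      Ultrafilter (Finset V × ℕ)) : Filter (Finset V × ℕ)), x i ∈ R n := by
    have : ∀ᶠ i in (atTop : Filter (Finset V × ℕ)), x i ∈ R n := by
      refine eventually_atTop.2 ⟨(∅, n), fun i hi => ?_⟩
      exact hanti n i.2 hi.2 (hx i).1
    exact Ultrafilter.of_le _ this
  obtain ⟨i, hi1, hi2⟩ := ((hs' K).and h1).exists
  exact ⟨x i, hi1, hi2⟩

theorem block_cc (hlf : ∀ v, (G.neighborSet v).Finite) (h4 : Four G) [Infinite V]
    (hc : Countable G.end) (hS : Sys G X N o) (hCof : Cof G X N) (hL : Lim G H X N) {S : Set V}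
    (hfin : (prs G S Sᶜ).Finite)
    (hblk : ∀ A ⊆ S, A.Nonempty → A ≠ S → (prs G A (S \ A)).Finite →
      ∃ u ∈ A, ∃ v ∈ S \ A, H.Adj u v) : CC H S := by
  classical
  intro Q hQ hQ0 hQne
  by_contra hcl
  push Not at hcl
  have hinf : (prs G Q (S \ Q)).Infinite := by
    intro hf
    obtain ⟨u, hu, v, hv, huv⟩ := hblk Q hQ hQ0 hQne hf
    exact hcl u hu v hv huv
  have hbad0 : Bad G Q S := by
    refine ⟨hfin, ?_⟩
    rw [inter_eq_self_of_subset_right hQ]
    exact hinf
  obtain ⟨s0, hs0⟩ := exists_some_end hlf (four_pre h4)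
  have : Nonempty G.end := ⟨⟨s0, hs0⟩⟩
  obtain ⟨e, he⟩ := exists_surjective_nat G.end
  let P : Type u := {R : Set V // R ⊆ S ∧ Bad G Q R}
  have hstep : ∀ (n : ℕ) (R : P), ∃ R' : P, R'.1 ⊆ R.1 ∧ Lives (e n).1 R'.1ᶜ := by
    rintro n ⟨R, hR, hb⟩
    obtain ⟨R', h1, h2, h3⟩ := step hS h4 hCof hL hQ hQne hQ0 hblk hcl (e n).2 hR hb
    exact ⟨⟨R', h1.trans hR, h2⟩, h1, h3⟩
  choose nx hnx using hstep
  let R : ℕ → P := fun n => Nat.rec ⟨S, subset_rfl, hbad0⟩ (fun n c => nx n c) n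
  have hRs : ∀ n, R (n + 1) = nx n (R n) := fun n => rfl
  have hRinf : ∀ n, (R n).1.Infinite := by
    intro n hf
    exact (R n).2.2.2 (prs_finite hlf (hf.subset inter_subset_left) _)
  obtain ⟨s, hs, hs'⟩ := end_of_seq hlf (four_pre h4) (fun n => (R n).1)
    (fun n => by rw [hRs]; exact (hnx n (R n)).1) hRinf
  obtain ⟨n, hn⟩ := he ⟨s, hs⟩
  have h1 := (hnx n (R n)).2
  rw [← hRs, hn] at h1
  obtain ⟨K, hK⟩ := h1
  obtain ⟨x, hx, hx'⟩ := hs' (n + 1) (Opposite.op K)
  exact hK hx hx'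

theorem Lim.univ_cc (hlf : ∀ v, (G.neighborSet v).Finite) (h4 : Four G) [Infinite V]
    (hc : Countable G.end) (hS : Sys G X N o) (hCof : Cof G X N) (hL : Lim G H X N) :
    CC H univ := by
  refine block_cc hlf h4 hc hS hCof hL ?_ ?_
  · rw [compl_univ]
    refine finite_empty.subset ?_
    rintro p ⟨-, h, -⟩
    exact h
  · intro A _ hne hneq hf
    rw [← compl_eq_univ_sdiff] at hf ⊢
    exact hL.all A hne (by rw [Set.nonempty_compl]; exact hneq) hf

theorem Lim.ring_cc (hlf : ∀ v, (G.neighborSet v).Finite) (h4 : Four G) [Infinite V]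
    (hc : Countable G.end) (hS : Sys G X N o) (hCof : Cof G X N) (hL : Lim G H X N) (i : ℕ) :
    CC H (X i \ N i) := by
  refine block_cc hlf h4 hc hS hCof hL ?_ (hL.rings i)
  refine ((hS.finX i).union (prs_finite_compl (hS.finN i))).subset ?_
  rintro ⟨a, b⟩ ⟨ha, hb, hab⟩
  by_cases hbX : b ∈ X i
  · right
    refine ⟨ha.2, ?_, hab⟩
    by_contra hbN
    exact hb ⟨hbX, hbN⟩
  · left
    exact ⟨ha.1, hbX, hab⟩

/-- the regions induce connected subgraphs of the limit graph -/
theorem Lim.region_cc (hlf : ∀ v, (G.neighborSet v).Finite) (h4 : Four G) [Infinite V]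
    (hc : Countable G.end) (hS : Sys G X N o) (hCof : Cof G X N) (hL : Lim G H X N) (i : ℕ) :
    CC H (X i) := by
  have h1 := Lim.univ_cc hlf h4 hc hS hCof hL
  have h2 := Lim.ring_cc hlf h4 hc hS hCof hL i
  -- every set which is closed in `X i` and does not meet the ring is empty
  have key : ∀ A ⊆ X i, A.Nonempty → (∀ u ∈ A, ∀ v ∈ X i \ A, ¬ H.Adj u v) →
      X i \ N i ⊆ A := by
    intro A hA hne hcl
    have hm : (A ∩ (X i \ N i)).Nonempty := by
      by_contra hcon
      rw [Set.not_nonempty_iff_eq_empty] at hcon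
      have hAN : A ⊆ N i := by
        intro x hx
        by_contra hxN
        have : x ∈ A ∩ (X i \ N i) := ⟨hx, hA hx, hxN⟩
        rw [hcon] at this
        exact this
      obtain ⟨u, hu, v, hv, huv⟩ := h1 A (subset_univ _) hne (fun he => by
        have : o ∈ A := by rw [he]; trivial
        exact hS.root i (hA this))
      have hvX : v ∈ X i := by
        by_contra hvX
        exact hS.sep i u (hAN hu) v hvX (hL.le huv)
      exact hcl u hu v ⟨hvX, hv.2⟩ huv
    by_contra hsub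
    obtain ⟨u, hu, v, hv, huv⟩ := h2 (A ∩ (X i \ N i)) inter_subset_right hm (fun he => hsub (by
      rw [← he]; exact inter_subset_left))
    exact hcl u hu.1 v ⟨hv.1.1, fun h => hv.2 ⟨h, hv.1⟩⟩ huv
  intro A hA hne hneq
  by_contra hcl
  push Not at hcl
  have e1 := key A hA hne hcl
  have e2 := key (X i \ A) sdiff_subset (by
    rw [nonempty_iff_ne_empty]
    intro he
    exact hneq (hA.antisymm (sdiff_eq_empty.1 he))) (by
    intro u hu v hv huv
    have hvA : v ∈ A := by
      by_contra hvA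
      exact hv.2 ⟨hv.1, hvA⟩
    exact hcl v hvA u hu huv.symm)
  obtain ⟨u, hu, v, hv, huv⟩ := sys_edge hS h4 i
  exact (e2 hv).2 (e1 hv)

end Pool.H70.HE
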