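import Pool.Agent.Helper17.HCC.Sys
import Pool.Agent.Helper66.HC.OneEnd

/-! # Ends that live in sets of vertices -/

open Set Filter

namespace Pool.H70.HE

open Pool.H66.HC Pool.H17.HCC

universe u

variable {V : Type u} {G H : SimpleGraph V} {X N : ℕ → Set V} {o : V}

/-- the type of the choices of components -/
abbrev Ch (G : SimpleGraph V) := ∀ K : (Finset V)ᵒᵖ, G.ComponentCompl K.unop

lemma supp_mono {s : Ch G} (hs : s ∈ G.end) {K L : Finset V} (h : K ⊆ L) :
    (s (Opposite.op L)).supp ⊆ (s (Opposite.op K)).supp := by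
  have hh : (K : Set V) ⊆ (L : Set V) := Finset.coe_subset.2 h
  have e : (s (Opposite.op L)).hom hh = s (Opposite.op K) :=
    hs (CategoryTheory.opHomOfLE (x := Opposite.op K) (y := Opposite.op L) h)
  have := (s (Opposite.op L)).subset_hom hh
  rw [e] at this
  exact this

lemma lives_mono {s : Ch G} {A B : Set V} (h : Lives s A) (hAB : A ⊆ B) : Lives s B := by
  obtain ⟨K, hK⟩ := h
  exact ⟨K, hK.trans hAB⟩

lemma lives_inter {s : Ch G} (hs : s ∈ G.end) {A B : Set V} (hA : Lives s A) (hB : Lives s B) :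
    Lives s (A ∩ B) := by
  classical
  obtain ⟨K, hK⟩ := hA
  obtain ⟨L, hL⟩ := hB
  exact ⟨K ∪ L, subset_inter ((supp_mono hs Finset.subset_union_left).trans hK)
    ((supp_mono hs Finset.subset_union_right).trans hL)⟩

lemma lives_nonempty {s : Ch G} {A : Set V} (h : Lives s A) : A.Nonempty := by
  obtain ⟨K, hK⟩ := h
  obtain ⟨x, hx⟩ := (s (Opposite.op K)).nonempty
  exact ⟨x, hK hx⟩

lemma lives_compl_fin {s : Ch G} (K : Finset V) : Lives s (K : Set V)ᶜ :=
  ⟨K, fun _ hx hxK => hx.1 hxK⟩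

lemma lives_not_compl {s : Ch G} (hs : s ∈ G.end) {A : Set V} (h : Lives s A) :
    ¬ Lives s Aᶜ := by
  intro h'
  obtain ⟨x, hx, hx'⟩ := lives_nonempty (lives_inter hs h h')
  exact hx' hx

/-- a connected set which avoids `K` and meets a component outside of `K` is inside of it -/
lemma cc_sub_supp {T : Set V} (hT : CC G T) {K : Finset V} (C : G.ComponentCompl (K : Set V))
    (hd : Disjoint T (K : Set V)) (hm : (T ∩ C.supp).Nonempty) : T ⊆ C.supp := by
  by_contra hcon
  obtain ⟨u, hu, v, hv, huv⟩ := hT _ inter_subset_left hm (fun he => hcon (by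
    rw [← he]; exact inter_subset_right))
  apply hv.2
  refine ⟨hv.1, ?_⟩
  exact SimpleGraph.ComponentCompl.mem_of_adj u v hu.2
    (fun h => Set.disjoint_left.1 hd hv.1 h) huv

/-- a component outside of `K` meeting a set and its complement contains an edge between them -/
lemma supp_edge {K : Finset V} (C : G.ComponentCompl (K : Set V)) {S : Set V} {a b : V}
    (ha : a ∈ C.supp) (hb : b ∈ C.supp) (haS : a ∈ S) (hbS : b ∉ S) :
    ∃ u ∈ S, ∃ v, v ∉ S ∧ G.Adj u v ∧ u ∉ K ∧ v ∉ K := by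
  obtain ⟨haK, hae⟩ := ha
  obtain ⟨hbK, hbe⟩ := hb
  have hreach : (G.induce ((K : Set V))ᶜ).Reachable ⟨a, haK⟩ ⟨b, hbK⟩ :=
    SimpleGraph.ConnectedComponent.exact (hae.trans hbe.symm)
  obtain ⟨p⟩ := hreach
  obtain ⟨d, hd, hd1, hd2⟩ := p.exists_boundary_dart {x | x.1 ∈ S} haS hbS
  exact ⟨d.fst.1, hd1, d.snd.1, hd2, d.adj, d.fst.2, d.snd.2⟩

/-- the finite set of the vertices of the boundary edges -/
noncomputable def bdry {S : Set V} (h : (prs G S Sᶜ).Finite) : Finset V := by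
  classical
  exact h.toFinset.image Prod.fst ∪ h.toFinset.image Prod.snd

lemma mem_bdry {S : Set V} (h : (prs G S Sᶜ).Finite) {u v : V} (hu : u ∈ S) (hv : v ∉ S)
    (huv : G.Adj u v) : u ∈ bdry h ∧ v ∈ bdry h := by
  classical
  have : (u, v) ∈ h.toFinset := by
    rw [Set.Finite.mem_toFinset]
    exact ⟨hu, hv, huv⟩
  unfold bdry
  constructor
  · rw [Finset.mem_union]
    exact Or.inl (Finset.mem_image_of_mem Prod.fst this)
  · rw [Finset.mem_union]
    exact Or.inr (Finset.mem_image_of_mem Prod.snd this)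

lemma lives_or {s : Ch G} {S : Set V} (h : (prs G S Sᶜ).Finite) :
    Lives s S ∨ Lives s Sᶜ := by
  by_cases h1 : ∃ a ∈ (s (Opposite.op (bdry h))).supp, a ∈ S
  · left
    obtain ⟨a, ha, haS⟩ := h1
    refine ⟨bdry h, fun b hb => ?_⟩
    by_contra hbS
    obtain ⟨u, hu, v, hv, huv, huK, hvK⟩ := supp_edge _ ha hb haS hbS
    exact huK (mem_bdry h hu hv huv).1
  · right
    push Not at h1
    exact ⟨bdry h, fun b hb => h1 b hb⟩

lemma prs_finite_compl {S : Set V} (h : (prs G S Sᶜ).Finite) : (prs G Sᶜ S).Finite := by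
  rw [← prs_swap]; exact h.image _

lemma prs_finite_mono {S S' T T' : Set V} (h : (prs G S' T').Finite) (h1 : S ⊆ S')
    (h2 : T ⊆ T') : (prs G S T).Finite := h.subset (prs_mono h1 h2)

/-- a connected set avoiding the boundary of `S` and meeting `S` is inside `S` -/
lemma cc_sub {T S : Set V} (hT : CC G T) (hm : (T ∩ S).Nonempty)
    (h : ∀ u ∈ T, ∀ v ∈ T, u ∈ S → v ∉ S → ¬ G.Adj u v) : T ⊆ S := by
  by_contra hcon
  obtain ⟨u, hu, v, hv, huv⟩ := hT _ inter_subset_left hm (fun he => hcon (by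
    rw [← he]; exact inter_subset_right))
  exact h u hu.1 v hv.1 hu.2 (fun hvS => hv.2 ⟨hv.1, hvS⟩) huv

lemma tci_cc {S : Set V} (h : TCi G S) : CC G S := by
  intro A hA hne hneq
  by_contra hcon
  push Not at hcon
  have h0 : prs G A (S \ A) = ∅ := by
    rw [Set.eq_empty_iff_forall_notMem]
    rintro ⟨a, b⟩ ⟨ha, hb, hab⟩
    exact hcon a ha b hb hab
  have := h A hA hne hneq (by rw [h0]; exact finite_empty)
  rw [ce, h0, Set.ncard_empty] at this
  omega

end Pool.H70.HE
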