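import Pool.Agent.Helper70.HE.Diag

/-! # The limit graph is good -/

open Set Filter

namespace Pool.H70.HE

open Pool.H66.HC Pool.H17.HCC

universe u

variable {V : Type u} {G H : SimpleGraph V} {X N : ℕ → Set V} {o : V}

lemma prs_finite_of_cutE {S : Set V} (h : (cutE G S).Finite) : (prs G S Sᶜ).Finite := by
  classical
  have hinj : Set.InjOn (fun p : V × V => s(p.1, p.2)) (prs G S Sᶜ) := by
    rintro ⟨a, b⟩ ⟨ha, hb, -⟩ ⟨c, d⟩ ⟨hc, hd, -⟩ he
    rcases Sym2.eq_iff.1 he with ⟨h1, h2⟩ | ⟨h1, h2⟩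
    · simp only at h1 h2
      rw [h1, h2]
    · simp only at h1 h2
      exfalso
      simp only at ha hd
      rw [h1] at ha
      exact hd ha
  refine Set.Finite.of_finite_image ((h.image Subtype.val).subset ?_) hinj
  rintro _ ⟨⟨a, b⟩, ⟨ha, hb, hab⟩, rfl⟩
  exact ⟨⟨s(a, b), hab⟩, ⟨a, ha, b, hb, rfl⟩, rfl⟩

/-- **The outcome of the count and compactness is good.** -/
theorem Lim.good2 (hlf : ∀ v, (G.neighborSet v).Finite) (h4 : Four G) [Infinite V]
    (hc : Countable G.end) (hS : Sys G X N o) (hCof : Cof G X N) (hL : Lim G H X N) :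
    Good2 G H := by
  classical
  refine ⟨hL.le, CC.preconnected (Lim.univ_cc hlf h4 hc hS hCof hL), ?_, ?_⟩
  · intro K
    by_contra hcon
    push Not at hcon
    -- the bad pairs
    have hex : ∀ L : Finset V, ∃ u v : V, ∃ (hu : u ∉ K ∪ L) (hv : v ∉ K ∪ L),
        (G.induce ((K ∪ L : Finset V) : Set V)ᶜ).Reachable ⟨u, hu⟩ ⟨v, hv⟩ ∧
        ¬ (H.induce (K : Set V)ᶜ).Reachable
          ⟨u, fun h => hu (Finset.mem_union_left _ h)⟩
          ⟨v, fun h => hv (Finset.mem_union_left _ h)⟩ := by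
      intro L
      obtain ⟨u, v, hu, hv, hu', hv', h1, h2⟩ := hcon (K ∪ L) Finset.subset_union_left
      exact ⟨u, v, hu, hv, h1, h2⟩
    choose u v hu hv h1 h2 using hex
    obtain ⟨s, hs, hs'⟩ := end_of_map hlf (four_pre h4)
      (Ultrafilter.of (atTop : Filter (Finset V))) u (by
      intro w
      have : ∀ᶠ L in (atTop : Filter (Finset V)), u L ≠ w := by
        refine eventually_atTop.2 ⟨{w}, fun L hL' => ?_⟩
        intro he
        exact hu L (Finset.mem_union_right _ (by rw [he]; exact hL' (Finset.mem_singleton_self w)))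
      exact Ultrafilter.of_le _ this)
    obtain ⟨i, hi1, hi2⟩ := hCof s hs K
    obtain ⟨M, hM⟩ := hi1
    have h3 : ∀ᶠ L in ((Ultrafilter.of (atTop : Filter (Finset V)) :
        Ultrafilter (Finset V)) : Filter (Finset V)), M ⊆ L := by
      have : ∀ᶠ L in (atTop : Filter (Finset V)), M ⊆ L :=
        eventually_atTop.2 ⟨M, fun L hL' => hL'⟩
      exact Ultrafilter.of_le _ this
    obtain ⟨L, hL1, hL2⟩ := ((hs' (Opposite.op M)).and h3).exists
    -- both vertices are in the same component outside of `M`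
    have hML : M ⊆ K ∪ L := hL2.trans Finset.subset_union_right
    have huM : u L ∉ M := fun h => hu L (hML h)
    have hvM : v L ∉ M := fun h => hv L (hML h)
    have hle : (((K ∪ L : Finset V) : Set V)ᶜ : Set V) ≤ ((M : Set V)ᶜ : Set V) :=
      Set.compl_subset_compl.2 (Finset.coe_subset.2 hML)
    have hr : (G.induce ((M : Set V))ᶜ).Reachable ⟨u L, huM⟩ ⟨v L, hvM⟩ :=
      (h1 L).map (SimpleGraph.induceHomOfLE G hle).toHom
    have hvs : v L ∈ (s (Opposite.op M)).supp := by
      obtain ⟨huM', hue⟩ := hL1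
      refine ⟨hvM, ?_⟩
      rw [← hue]
      exact (SimpleGraph.ConnectedComponent.sound hr).symm
    have hX : CC H (X i) := Lim.region_cc hlf h4 hc hS hCof hL i
    have hr2 := hX.reachable (hS.sub i (hM hL1)) (hS.sub i (hM hvs))
    have hle2 : X i ≤ ((K : Set V)ᶜ : Set V) := fun x hx hxK => Set.disjoint_left.1 hi2 hx hxK
    exact h2 L (hr2.map (SimpleGraph.induceHomOfLE H hle2).toHom)
  · intro S hne hcne hfin
    exact hL.rest S hne hcne (prs_finite_of_cutE hfin)

end Pool.H70.HE
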