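import Pool.Agent.Helper70.HE.Ends
import Pool.Agent.Helper66.HE.Ed

/-! # Minimum cut regions of an end -/

open Set Filter

namespace Pool.H70.HE

open Pool.H66.HC Pool.H17.HCC Pool.H66.HE

universe u

variable {V : Type u} {G H : SimpleGraph V}

/-- the two forms of two-edge-connectedness -/
lemma tci_iff {Z : Set V} : TCi G Z ↔ Pool.H66.HE.TC G Z := by
  constructor
  · intro h A hA hne hc
    unfold Pool.H66.HE.ed
    by_cases hf : (prs G A (Z \ A)).Finite
    · have := h A hA hne (fun he => by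
        rw [he, sdiff_self] at hc
        exact Set.not_nonempty_empty hc) hf
      unfold ce at this
      rw [← hf.cast_ncard_eq]
      exact_mod_cast this
    · rw [Set.Infinite.encard_eq hf]
      exact le_top
  · intro h A hA hne hneq hf
    have := h A hA hne (by
      rw [nonempty_iff_ne_empty]
      intro he
      exact hneq (hA.antisymm (sdiff_eq_empty.1 he)))
    unfold Pool.H66.HE.ed at this
    rw [← hf.cast_ncard_eq] at this
    unfold ce
    exact_mod_cast this

lemma four_ed (h4 : Four G) {Z : Set V} (hne : Z.Nonempty) (hc : Zᶜ.Nonempty) :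
    4 ≤ ed G Z Zᶜ := by
  unfold Pool.H66.HE.ed
  by_cases hf : (prs G Z Zᶜ).Finite
  · have := h4 Z hne hc hf
    unfold ce at this
    rw [← hf.cast_ncard_eq]
    exact_mod_cast this
  · rw [Set.Infinite.encard_eq hf]
    exact le_top

lemma ed_ne_top {S T : Set V} : ed G S T ≠ ⊤ ↔ (prs G S T).Finite := by
  unfold Pool.H66.HE.ed
  rw [Set.encard_ne_top_iff]

lemma arith1 {a b c : ℕ∞} (hc : b + c ≠ ⊤) (h1 : b + c ≤ a + b) (h5 : 4 ≤ a + c) : 2 ≤ a := by
  have hb : b ≠ ⊤ := fun h => hc (by rw [h, top_add])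
  have hc' : c ≠ ⊤ := fun h => hc (by rw [h, add_top])
  lift b to ℕ using hb
  lift c to ℕ using hc'
  induction a using ENat.recTopCoe with
  | top => exact le_top
  | coe a =>
    have h1' : b + c ≤ a + b := by exact_mod_cast h1
    have h5' : 4 ≤ a + c := by exact_mod_cast h5
    have : 2 ≤ a := by omega
    exact_mod_cast this

lemma arith2 {a b c : ℕ∞} (hc : a + c ≠ ⊤) (h1 : a + c ≤ c + b) (h7 : 4 ≤ a + b) : 2 ≤ b := by
  rw [add_comm c b] at h1
  rw [add_comm a c] at hc h1
  refine arith1 hc ?_ ?_ (b := c) (c := a)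
  · exact h1
  · rwa [add_comm]

/-- finite two-edge-connected hulls inside of a two-edge-connected set -/
lemma tci_hull (hlf : ∀ v, (G.neighborSet v).Finite) {Z : Set V} (hZ : TCi G Z)
    (hZ0 : Z.Nonempty) {F : Set V} (hF : F.Finite) (hFZ : F ⊆ Z) :
    ∃ T : Set V, T.Finite ∧ T ⊆ Z ∧ Pool.H66.HC.TC G T ∧ T.Nonempty ∧ F ⊆ T := by
  classical
  refine hull (tci_cc hZ) (Pool.H66.HC.TC G) tc_singleton
    (fun A B hA hB h1 h2 r hr hr' => tc_union hlf hA hB h1 h2 hr hr') ?_ hF hFZ hZ0
  intro u hu v hv huv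
  let G' : SimpleGraph V :=
    { Adj := fun a b => G.Adj a b ∧ a ∈ Z ∧ b ∈ Z
      symm := ⟨fun a b h => ⟨h.1.symm, h.2.2, h.2.1⟩⟩
      loopless := ⟨fun a h => G.loopless.irrefl a h.1⟩ }
  have hreach : (G'.deleteEdges {s(u, v)}).Reachable u v := by
    by_contra hcon
    set A : Set V := {x | x ∈ Z ∧ (G'.deleteEdges {s(u, v)}).Reachable u x} with hA
    have hsub : prs G A (Z \ A) ⊆ {(u, v)} := by
      rintro ⟨a, b⟩ ⟨ha, hb, hab⟩
      simp only at ha hb hab
      by_cases he : s(a, b) = s(u, v)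
      · rcases Sym2.eq_iff.1 he with ⟨h1, h2⟩ | ⟨h1, h2⟩
        · rw [h1, h2]; rfl
        · rw [h1] at ha
          exact absurd ha.2 hcon
      · exfalso
        apply hb.2
        refine ⟨hb.1, SimpleGraph.Reachable.trans ha.2 ?_⟩
        refine SimpleGraph.Adj.reachable ?_
        rw [SimpleGraph.deleteEdges_adj]
        exact ⟨⟨hab, ha.1, hb.1⟩, he⟩
    have hfin : (prs G A (Z \ A)).Finite := (finite_singleton _).subset hsub
    have h1 := hZ A (fun x hx => hx.1) ⟨u, hu, SimpleGraph.Reachable.refl _⟩ (fun he => by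
      have : v ∈ A := by rw [he]; exact hv
      exact hcon this.2) hfin
    have h2 : ce G A (Z \ A) ≤ 1 := by
      have := Set.ncard_le_ncard hsub (finite_singleton _)
      rwa [Set.ncard_singleton] at this
    omega
  obtain ⟨p, hp⟩ := hreach.exists_isPath
  have hle : G'.deleteEdges {s(u, v)} ≤ G.deleteEdges {s(u, v)} := by
    intro a b hab
    rw [SimpleGraph.deleteEdges_adj] at hab ⊢
    exact ⟨hab.1.1, hab.2⟩
  have hsup : ∀ {a b : V} (q : (G'.deleteEdges {s(u, v)}).Walk a b), a ∈ Z →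
      ∀ x ∈ q.support, x ∈ Z := by
    intro a b q
    induction q with
    | nil =>
      intro ha x hx
      rw [SimpleGraph.Walk.support_nil, List.mem_singleton] at hx
      rw [hx]; exact ha
    | cons h q ih =>
      intro ha x hx
      rw [SimpleGraph.deleteEdges_adj] at h
      rw [SimpleGraph.Walk.support_cons, List.mem_cons] at hx
      rcases hx with rfl | hx
      · exact ha
      · exact ih h.1.2.2 x hx
  have h1 := tc_support hlf huv (p.mapLe hle) (hp.mapLe hle).isTrail
  rw [SimpleGraph.Walk.support_mapLe_eq_support] at h1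
  exact ⟨{x | x ∈ p.support}, p.support.finite_toSet, fun x hx => hsup p hu x hx, h1,
    p.start_mem_support, p.end_mem_support⟩

/-- **Regions.** -/
theorem region (hlf : ∀ v, (G.neighborSet v).Finite) (h4 : Four G) {Z : Set V} (hZ : TCi G Z)
    (hZf : (prs G Z Zᶜ).Finite) {s : Ch G} (hs : s ∈ G.end) (hsZ : Lives s Z) (K : Finset V) :
    ∃ X ⊆ Z, (prs G X Xᶜ).Finite ∧ Lives s X ∧ Disjoint X (K : Set V) ∧
      (∀ u ∈ X, ∀ v, G.Adj u v → v ∈ Z) ∧ TCi G X ∧ TCi G (Z \ X) ∧ (Z \ X).Nonempty := by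
  classical
  obtain ⟨F, hFf, hFZ, hFt, hFne, hFK⟩ := tci_hull hlf hZ (lives_nonempty hsZ)
    (F := (((bdry hZf ∪ K : Finset V)) : Set V) ∩ Z)
    ((Finset.finite_toSet _).subset inter_subset_left) inter_subset_right
  -- the regions
  let Rg : Set V → Prop := fun S => S ⊆ Z \ F ∧ Lives s S
  have hex : ∃ S, Rg S ∧ (prs G S Sᶜ).Finite := by
    obtain ⟨K1, hK1⟩ := hsZ
    refine ⟨(s (Opposite.op (K1 ∪ hFf.toFinset))).supp, ⟨?_, K1 ∪ hFf.toFinset, subset_rfl⟩, ?_⟩
    · intro x hx
      refine ⟨hK1 (supp_mono hs Finset.subset_union_left hx), fun hxF => ?_⟩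
      apply hx.1
      show x ∈ ((K1 ∪ hFf.toFinset : Finset V) : Set V)
      rw [Finset.mem_coe, Finset.mem_union, Set.Finite.mem_toFinset]
      exact Or.inr hxF
    · have hf : (prs G ((K1 ∪ hFf.toFinset : Finset V) : Set V) univ).Finite :=
        prs_finite hlf (Finset.finite_toSet _) _
      have : (prs G univ ((K1 ∪ hFf.toFinset : Finset V) : Set V)).Finite := by
        rw [← prs_swap]; exact hf.image _
      refine this.subset ?_
      rintro ⟨a, b⟩ ⟨ha, hb, hab⟩
      refine ⟨trivial, ?_, hab⟩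
      by_contra hbK
      exact hb (SimpleGraph.ComponentCompl.mem_of_adj a b ha hbK hab)
  obtain ⟨X, hX, hmin⟩ : ∃ X, Rg X ∧ ∀ S, Rg S → ed G X Xᶜ ≤ ed G S Sᶜ := by
    have hne : {n : ℕ∞ | ∃ S, Rg S ∧ ed G S Sᶜ = n}.Nonempty := by
      obtain ⟨S, hS, -⟩ := hex
      exact ⟨_, S, hS, rfl⟩
    obtain ⟨X, hX, he⟩ := csInf_mem hne
    refine ⟨X, hX, fun S hS => ?_⟩
    rw [he]
    exact csInf_le (OrderBot.bddBelow _) ⟨S, hS, rfl⟩
  have hXf : (prs G X Xᶜ).Finite := by
    obtain ⟨S, hS, hSf⟩ := hex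
    have h1 := hmin S hS
    rw [← ed_ne_top] at hSf ⊢
    exact fun h => hSf (top_le_iff.1 (h ▸ h1))
  have hXZ : X ⊆ Z := fun x hx => (hX.1 hx).1
  have hnb : ∀ u ∈ Z, ∀ v, u ∉ F → G.Adj u v → v ∈ Z := by
    intro u hu v huF huv
    by_contra hv
    apply huF
    apply hFK
    refine ⟨?_, hu⟩
    rw [Finset.mem_coe, Finset.mem_union]
    exact Or.inl (mem_bdry hZf hu hv huv).1
  have hXe : ed G X Xᶜ ≠ ⊤ := ed_ne_top.2 hXf
  refine ⟨X, hXZ, hXf, hX.2, ?_, fun u hu v huv => hnb u (hXZ hu) v (hX.1 hu).2 huv, ?_, ?_, ?_⟩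
  · rw [Set.disjoint_left]
    intro x hx hxK
    apply (hX.1 hx).2
    apply hFK
    refine ⟨?_, hXZ hx⟩
    rw [Finset.mem_coe, Finset.mem_union]
    exact Or.inr hxK
  · -- `X` is two-edge-connected
    rw [tci_iff]
    have one : ∀ P B : Set V, P ∪ B = X → Disjoint P B → B.Nonempty → Lives s P →
        2 ≤ ed G P B := by
      intro P B hPB hd hB hP
      have h1 := hmin P ⟨fun x hx => hX.1 (hPB ▸ Or.inl hx), hP⟩
      have e1 : Pᶜ = B ∪ Xᶜ := by
        ext x
        rw [← hPB]
        simp only [mem_compl_iff, mem_union, not_or]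
        constructor
        · intro hx
          by_cases hxB : x ∈ B
          · exact Or.inl hxB
          · exact Or.inr ⟨hx, hxB⟩
        · rintro (hx | hx)
          · exact fun h => Set.disjoint_left.1 hd h hx
          · exact hx.1
      have e2 : Bᶜ = P ∪ Xᶜ := by
        ext x
        rw [← hPB]
        simp only [mem_compl_iff, mem_union, not_or]
        constructor
        · intro hx
          by_cases hxP : x ∈ P
          · exact Or.inl hxP
          · exact Or.inr ⟨hxP, hx⟩
        · rintro (hx | hx)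
          · exact fun h => Set.disjoint_left.1 hd hx h
          · exact hx.2
      have d1 : Disjoint B Xᶜ := by
        rw [Set.disjoint_left]
        intro x hx hx'
        exact hx' (hPB ▸ Or.inr hx)
      have d2 : Disjoint P Xᶜ := by
        rw [Set.disjoint_left]
        intro x hx hx'
        exact hx' (hPB ▸ Or.inl hx)
      have h2 : ed G P Pᶜ = ed G P B + ed G P Xᶜ := by
        conv_lhs => rw [e1]
        exact ed_union_right P d1
      have h3 : ed G B Bᶜ = ed G B P + ed G B Xᶜ := by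
        conv_lhs => rw [e2]
        exact ed_union_right B d2
      have h4' : ed G X Xᶜ = ed G P Xᶜ + ed G B Xᶜ := by
        conv_lhs => rw [← hPB]
        rw [ed_union_left _ hd, hPB]
      have h5 : 4 ≤ ed G B Bᶜ := four_ed h4 hB (by
        obtain ⟨x, hx⟩ := lives_nonempty hP
        exact ⟨x, fun h => Set.disjoint_left.1 hd hx h⟩)
      rw [ed_comm B P] at h3
      rw [h4'] at hXe
      rw [h2, h4'] at h1
      rw [h3] at h5
      exact arith1 hXe h1 h5
    intro A hA hne hne'
    by_contra hlt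
    push Not at hlt
    have hfA : (prs G A Aᶜ).Finite := by
      have h1 : (prs G A (X \ A)).Finite := by
        rw [← ed_ne_top]
        exact ne_top_of_lt hlt
      refine (h1.union hXf).subset ?_
      rintro ⟨a, b⟩ ⟨ha, hb, hab⟩
      by_cases hbX : b ∈ X
      · left; exact ⟨ha, ⟨hbX, hb⟩, hab⟩
      · right; exact ⟨hA ha, hbX, hab⟩
    rcases lives_or (s := s) hfA with h1 | h1
    · exact absurd (one A (X \ A) (union_sdiff_cancel hA) disjoint_sdiff_right hne' h1)
        (not_le.2 hlt)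
    · have h2 : Lives s (X \ A) := lives_mono (lives_inter hs hX.2 h1) (fun x hx => ⟨hx.1, hx.2⟩)
      have := one (X \ A) A (by rw [union_comm]; exact union_sdiff_cancel hA)
        disjoint_sdiff_left hne h2
      rw [ed_comm] at this
      exact absurd this (not_le.2 hlt)
  · -- the rest is two-edge-connected
    rw [tci_iff]
    have one : ∀ A ⊆ Z \ X, A.Nonempty → ((Z \ X) \ A).Nonempty → Disjoint A F →
        2 ≤ ed G A ((Z \ X) \ A) := by
      intro A hA hne hne' hd
      have dXA : Disjoint X A := by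
        rw [Set.disjoint_left]
        intro x hx hx'
        exact (hA hx').2 hx
      have h1 := hmin (X ∪ A) ⟨union_subset hX.1 (fun x hx =>
        ⟨(hA hx).1, fun h => Set.disjoint_left.1 hd hx h⟩), lives_mono hX.2 subset_union_left⟩
      have hz : ed G A Zᶜ = 0 := by
        rw [ed_eq_zero]
        intro x hx y hy hxy
        exact hy (hnb x (hA hx).1 y (fun h => Set.disjoint_left.1 hd hx h) hxy)
      have e1 : (X ∪ A)ᶜ = ((Z \ X) \ A) ∪ Zᶜ := by
        ext x
        simp only [mem_compl_iff, mem_union, Set.mem_sdiff, not_or]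
        constructor
        · rintro ⟨h1, h2⟩
          by_cases hxZ : x ∈ Z
          · exact Or.inl ⟨⟨hxZ, h1⟩, h2⟩
          · exact Or.inr hxZ
        · rintro (⟨⟨_, h2⟩, h3⟩ | h1)
          · exact ⟨h2, h3⟩
          · exact ⟨fun h => h1 (hXZ h), fun h => h1 (hA h).1⟩
      have d1 : Disjoint ((Z \ X) \ A) Zᶜ := by
        rw [Set.disjoint_left]
        intro x hx hx'
        exact hx' hx.1.1
      have h2 : ed G A (X ∪ A)ᶜ = ed G A ((Z \ X) \ A) := by
        rw [e1, ed_union_right A d1, hz, add_zero]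
      have e2 : Xᶜ = A ∪ (X ∪ A)ᶜ := by
        ext x
        simp only [mem_compl_iff, mem_union, not_or]
        constructor
        · intro hx
          by_cases hxA : x ∈ A
          · exact Or.inl hxA
          · exact Or.inr ⟨hx, hxA⟩
        · rintro (hx | hx)
          · exact fun h => Set.disjoint_left.1 dXA h hx
          · exact hx.1
      have e3 : Aᶜ = X ∪ (X ∪ A)ᶜ := by
        ext x
        simp only [mem_compl_iff, mem_union, not_or]
        constructor
        · intro hx
          by_cases hxX : x ∈ X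
          · exact Or.inl hxX
          · exact Or.inr ⟨hxX, hx⟩
        · rintro (hx | hx)
          · exact fun h => Set.disjoint_left.1 dXA hx h
          · exact hx.2
      have d2 : Disjoint A (X ∪ A)ᶜ := by
        rw [Set.disjoint_left]
        intro x hx hx'
        exact hx' (Or.inr hx)
      have d3 : Disjoint X (X ∪ A)ᶜ := by
        rw [Set.disjoint_left]
        intro x hx hx'
        exact hx' (Or.inl hx)
      have h3 : ed G X Xᶜ = ed G X A + ed G X (X ∪ A)ᶜ := by
        conv_lhs => rw [e2]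
        exact ed_union_right X d2
      have h5 : ed G A Aᶜ = ed G X A + ed G A (X ∪ A)ᶜ := by
        conv_lhs => rw [e3]
        rw [ed_union_right A d3, ed_comm A X]
      have h6 : ed G (X ∪ A) (X ∪ A)ᶜ = ed G X (X ∪ A)ᶜ + ed G A (X ∪ A)ᶜ :=
        ed_union_left _ dXA
      have h7 : 4 ≤ ed G A Aᶜ := four_ed h4 hne (by
        obtain ⟨x, hx⟩ := hne'
        exact ⟨x, hx.2⟩)
      rw [h3, h6] at h1
      rw [h3] at hXe
      rw [h5] at h7
      rw [h2] at h1 h7
      exact arith2 hXe h1 h7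
    intro A hA hne hne'
    by_cases c1 : Disjoint A F
    · exact one A hA hne hne' c1
    by_cases c2 : Disjoint ((Z \ X) \ A) F
    · have := one ((Z \ X) \ A) sdiff_subset hne' (by
        rwa [Set.sdiff_sdiff_cancel_left hA]) c2
      rwa [Set.sdiff_sdiff_cancel_left hA, ed_comm] at this
    rw [Set.not_disjoint_iff] at c1 c2
    obtain ⟨x, hx, hxF⟩ := c1
    obtain ⟨y, hy, hyF⟩ := c2
    have hFt' : 2 ≤ ce G (A ∩ F) (F \ (A ∩ F)) := hFt (A ∩ F) inter_subset_right ⟨x, hx, hxF⟩
      (fun he => by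
        have : y ∈ A ∩ F := by rw [he]; exact hyF
        exact hy.2 this.1)
    have hfin : (prs G (A ∩ F) (F \ (A ∩ F))).Finite :=
      prs_finite hlf (hFf.subset inter_subset_right) _
    have h8 : (2 : ℕ∞) ≤ ed G (A ∩ F) (F \ (A ∩ F)) := by
      unfold Pool.H66.HE.ed
      rw [← hfin.cast_ncard_eq]
      unfold ce at hFt'
      exact_mod_cast hFt'
    refine h8.trans (ed_mono inter_subset_left ?_)
    rintro z ⟨hz, hz'⟩
    exact ⟨⟨hFZ hz, fun h => (hX.1 h).2 hz⟩, fun h => hz' ⟨h, hz⟩⟩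
  · obtain ⟨f, hf⟩ := hFne
    exact ⟨f, hFZ hf, fun h => (hX.1 h).2 hf⟩

end Pool.H70.HE
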